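import Mathlib

open MeasureTheory Filter Topology Real

namespace Pool.Agent.Results.MP_3f28ca_an.Parry

/-- words over `{a, b}`; `true` is `a`, `false` is `b` -/
abbrev W := List Bool

/-- a random substitution: realisations `s x` of the letter `x`, with probabilities `p x` -/
structure RS where
  s : Bool → Finset W
  p : Bool → W → ℝ
  ne : ∀ x, ∀ u ∈ s x, u ≠ []
  pos : ∀ x, ∀ u ∈ s x, 0 < p x u
  sum : ∀ x, ∑ u ∈ s x, p x u = 1

/-- substitution matrix -/
noncomputable def RS.M (ϑ : RS) : Matrix Bool Bool ℝ := fun y x => ∑ u ∈ ϑ.s x, ϑ.p x u * u.count y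

/-- expectation of `f (ϑ w)`, letters being replaced independently -/
noncomputable def RS.ex (ϑ : RS) : W → (W → ℝ) → ℝ
  | [], f => f []
  | x :: w, f => ∑ u ∈ ϑ.s x, ϑ.p x u * ϑ.ex w fun v => f (u ++ v)

/-- expectation of `f (ϑ^n x)` -/
noncomputable def RS.exn (ϑ : RS) (x : Bool) : ℕ → (W → ℝ) → ℝ
  | 0, f => f [x]
  | n + 1, f => ϑ.exn x n fun w => ϑ.ex w f

/-- number of occurrences of `v` in `w` -/
def occ (v w : W) : ℕ := w.tails.countP (v <+: ·)

/-- transition probabilities of the Parry measure -/
noncomputable def tr : Bool → Bool → ℝ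
  | true, true => goldenRatio⁻¹
  | true, false => goldenRatio⁻¹ ^ 2
  | false, true => 1
  | false, false => 0

/-- probability of reading `u` after the letter `x` -/
noncomputable def chain : Bool → W → ℝ
  | _, [] => 1
  | x, y :: u => tr x y * chain y u

/-- Parry measure of the cylinder `[v]` -/
noncomputable def parry : W → ℝ
  | [] => 1
  | x :: u => (if x then goldenRatio ^ 2 else 1) / (goldenRatio ^ 2 + 1) * chain x u

noncomputable def q : ℝ := goldenRatio⁻¹

lemma q0 : 0 < q := inv_pos.2 goldenRatio_pos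
lemma q1 : q + q ^ 2 = 1 := by
  have := goldenRatio_pos
  have := goldenRatio_sq
  unfold q
  generalize goldenRatio = t at *
  field_simp; linarith

lemma par (x : Bool) (u : W) : parry (x :: u) * (1 + q ^ 2) = (if x then 1 else q ^ 2) * chain x u := by
  have := goldenRatio_pos
  simp only [parry, q]
  generalize goldenRatio = t at *
  cases x <;> simp <;> field_simp

noncomputable def th : RS := ⟨fun _ => {[true], [true, false]}, fun _ u => q ^ u.length, by simp,
  fun _ _ _ => pow_pos q0 _, fun _ => by simpa using q1⟩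

noncomputable def P : Module.End ℝ (W → ℝ) where
  toFun f w := q * f (true :: w) + q ^ 2 * f (true :: false :: w)
  map_add' f g := funext fun w => by simp; ring
  map_smul' c f := funext fun w => by simp; ring

lemma P_ap (f : W → ℝ) (w : W) : P f w = q * f (true :: w) + q ^ 2 * f (true :: false :: w) := rfl

lemma ex_eq (w : W) (f : W → ℝ) : th.ex w f = (P ^ w.length) f [] := by
  induction w generalizing f with
  | nil => rfl
  | cons x w ih =>
    rw [List.length_cons, pow_succ, Module.End.mul_apply,
      show P f = q • (fun v => f (true :: v)) + q ^ 2 • fun v => f (true :: false :: v) from rfl]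
    simp [RS.ex, ih, show th.s x = {[true], [true, false]} from rfl, show ∀ u, th.p x u = q ^ u.length from fun _ => rfl]

lemma mono (n : ℕ) {f g : W → ℝ} (w : W) (h : ∀ u, w.length + n ≤ u.length → u.length ≤ w.length + 2 * n → f u ≤ g u) :
    (P ^ n) f w ≤ (P ^ n) g w := by
  induction n generalizing f g with
  | zero => exact h w le_rfl le_rfl
  | succ n ih =>
    rw [pow_succ]
    refine ih fun u a b => ?_
    have := q0
    simp only [P_ap]
    gcongr <;> exact h _ (by simp; omega) (by simp; omega)

lemma cst (n : ℕ) (c : ℝ) : (P ^ n) (fun _ => c) = fun _ => c := by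
  induction n with
  | zero => rfl
  | succ n ih => rw [pow_succ', Module.End.mul_apply, ih]; funext w; rw [P_ap]; linear_combination c * q1

noncomputable def I (v w : W) : ℝ := if v <+: w then 1 else 0

lemma pre (j : ℕ) (u : W) (h : u.length ≤ j) : (P ^ j) (I u) = fun _ => chain false u := by
  induction j generalizing u with
  | zero => obtain rfl := List.length_eq_zero_iff.1 (Nat.le_zero.1 h); funext; simp [I, chain]
  | succ j ih =>
    rw [pow_succ, Module.End.mul_apply]
    match u, h with
    | [], _ => rw [show P (I []) = fun _ => 1 by funext; simpa [P_ap, I] using q1, cst]; rfl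
    | false :: u, _ => rw [show P (I (false :: u)) = fun _ => 0 by funext; simp [P_ap, I], cst]; simp [chain, tr]
    | [true], _ => rw [show P (I [true]) = fun _ => 1 by funext; simpa [P_ap, I] using q1, cst]; simp [chain, tr]
    | true :: true :: u, h =>
      rw [show P (I (true :: true :: u)) = q • I (true :: u) by funext; simp [P_ap, I], map_smul, ih _ (by simpa using h)]
      funext; simp [chain, tr, q]
    | true :: false :: u, h =>
      rw [show P (I (true :: false :: u)) = q • I (false :: u) + q ^ 2 • I u by funext; simp [P_ap, I], map_add, map_smul,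
        map_smul, ih _ (by simpa using h), ih _ (by simp at h; omega)]
      funext; simp [chain, tr, q]

lemma occ_cons (v : W) (x : Bool) (w : W) : (occ v (x :: w) : ℝ) = occ v w + I v (x :: w) := by
  simp [occ, I, List.countP_cons]

lemma var (v : W) (hv : v ≠ []) (h1 : |parry v| ≤ 1) : ∃ C : ℝ, 0 ≤ C ∧ ∀ n : ℕ, 1 ≤ n →
    (P ^ n) (fun w => (occ v w - parry v * w.length) ^ 2) [] ≤ C * n := by
  set φ := parry v
  set X : W → ℝ := fun w => occ v w - φ * w.length
  set k := v.length
  set G : W → ℝ := P (I v) + (q ^ 2 • fun w => I v (false :: w)) - fun _ => φ * (1 + q ^ 2) with hG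
  have I1 : ∀ u w, 0 ≤ I u w ∧ I u w ≤ 1 := fun u w => by unfold I; split_ifs <;> simp
  have q2 := q0
  have q3 := q1
  have G0 : (P ^ k) G = 0 := by
    rw [hG, map_sub, map_add, map_smul, cst, ← Module.End.mul_apply, ← pow_succ, pre _ _ (by omega)]
    simp only [φ, k]
    match v, hv with
    | true :: u, _ =>
      rw [show (fun w => I (true :: u) (false :: w)) = fun _ => 0 by funext; simp [I], cst, par]
      funext; simp [chain, tr]
    | false :: u, _ =>
      rw [show (fun w => I (false :: u) (false :: w)) = I u by funext; simp [I], pre _ _ (by simp), par]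
      funext; simp [chain, tr]
  have PX : P X = X + G := by
    funext w; simp only [hG, X, P_ap, occ_cons, List.length_cons, Pi.sub_apply, Pi.add_apply, Pi.smul_apply, smul_eq_mul]
    push_cast; linear_combination (occ v w - φ * w.length - φ) * q1
  have G1 : ∀ w, |G w| ≤ 4 := fun w => by
    simp only [hG, P_ap, Pi.sub_apply, Pi.add_apply, Pi.smul_apply, smul_eq_mul]
    rw [abs_le] at h1 ⊢
    have := I1 v (true :: w); have := I1 v (true :: false :: w); have := I1 v (false :: w)
    constructor <;> nlinarith [sq_nonneg q]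
  set h : W → ℝ := ∑ j ∈ Finset.range k, (P ^ j) G with hh
  have h2 : ∀ w, |h w| ≤ 4 * k := fun w => by
    rw [hh, Finset.sum_apply]
    refine (Finset.abs_sum_le_sum_abs _ _).trans ((Finset.sum_le_card_nsmul _ _ 4 fun j _ => abs_le.2 ⟨?_, ?_⟩).trans
      (by simp [mul_comm]))
    · exact (congrFun (cst j _) w).ge.trans (mono j w fun u _ _ => (abs_le.1 (G1 u)).1)
    · exact (mono j w fun u _ _ => (abs_le.1 (G1 u)).2).trans (congrFun (cst j _) w).le
  have PM : P (X + h) = X + h := by
    have := Finset.sum_range_succ' (fun j => (P ^ j) G) k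
    rw [Finset.sum_range_succ, G0] at this
    simp only [pow_succ', Module.End.mul_apply, ← map_sum, pow_zero, Module.End.one_apply, add_zero] at this
    rw [map_add, PX, add_assoc, add_comm G, ← this]
  set C : ℝ := (4 + 8 * k) ^ 2
  have st : ∀ w, P (fun w => (X + h) w ^ 2) w ≤ (X + h) w ^ 2 + C := fun w => by
    have m := congrFun PM w
    have a : ((X + h) (true :: w) - (X + h) w) ^ 2 ≤ C := sq_le_sq' (by
      simp only [X, Pi.add_apply, occ_cons, List.length_cons]; push_cast
      linarith [I1 v (true :: w), abs_le.1 h1, abs_le.1 (h2 w), abs_le.1 (h2 (true :: w))]) (by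
      simp only [X, Pi.add_apply, occ_cons, List.length_cons]; push_cast
      linarith [I1 v (true :: w), abs_le.1 h1, abs_le.1 (h2 w), abs_le.1 (h2 (true :: w))])
    have b : ((X + h) (true :: false :: w) - (X + h) w) ^ 2 ≤ C := sq_le_sq' (by
      simp only [X, Pi.add_apply, occ_cons, List.length_cons]; push_cast
      linarith [I1 v (true :: false :: w), I1 v (false :: w), abs_le.1 h1, abs_le.1 (h2 w),
        abs_le.1 (h2 (true :: false :: w))]) (by
      simp only [X, Pi.add_apply, occ_cons, List.length_cons]; push_cast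
      linarith [I1 v (true :: false :: w), I1 v (false :: w), abs_le.1 h1, abs_le.1 (h2 w),
        abs_le.1 (h2 (true :: false :: w))])
    simp only [P_ap] at m ⊢
    generalize (X + h) (true :: w) = x, (X + h) (true :: false :: w) = y, (X + h) w = z at *
    have a' := mul_le_mul_of_nonneg_left a q2.le
    have b' := mul_le_mul_of_nonneg_left b (sq_nonneg q)
    linear_combination a' + b' + 2 * z * m + (C - z ^ 2) * q3
  have it : ∀ n : ℕ, (P ^ n) (fun w => (X + h) w ^ 2) [] ≤ (X + h) [] ^ 2 + C * n := fun n => by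
    induction n with
    | zero => simp
    | succ n ih =>
      rw [pow_succ, Module.End.mul_apply]
      refine (mono n [] (g := (fun w => (X + h) w ^ 2) + fun _ => C) fun u _ _ => st u).trans ?_
      rw [map_add, cst]; push_cast; simp only [Pi.add_apply] at *; linarith
  have C0 : 0 ≤ C := by positivity
  refine ⟨2 * (X + h) [] ^ 2 + 2 * C + 2 * (4 * k) ^ 2, by positivity, fun n hn => ?_⟩
  refine (mono n [] (g := (2 : ℝ) • (fun w => (X + h) w ^ 2) + fun _ => (2 * (4 * k) ^ 2 : ℝ)) fun u _ _ => ?_).trans ?_
  · have := sq_le_sq' (abs_le.1 (h2 u)).1 (abs_le.1 (h2 u)).2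
    simp only [Pi.add_apply, Pi.smul_apply, smul_eq_mul]
    nlinarith [sq_nonneg (X u + 2 * h u)]
  · rw [map_add, cst, map_smul]
    have : (1 : ℝ) ≤ n := by exact_mod_cast hn
    simp only [Pi.add_apply, Pi.smul_apply, smul_eq_mul] at *
    nlinarith [it n, sq_nonneg (X [] + h []), sq_nonneg (4 * k : ℝ)]

lemma exn_mono (x : Bool) (n : ℕ) {f g : W → ℝ} (h : ∀ w ≠ [], f w ≤ g w) : th.exn x n f ≤ th.exn x n g := by
  induction n generalizing f g with
  | zero => exact h _ (by simp)
  | succ n ih =>
    refine ih fun w hw => ?_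
    rw [ex_eq, ex_eq]
    exact mono _ _ fun u a _ => h u fun e => hw (by simpa [e] using a)

lemma exn_smul (x : Bool) (n : ℕ) (c : ℝ) (f : W → ℝ) : th.exn x n (c • f) = c * th.exn x n f := by
  induction n generalizing f with
  | zero => rfl
  | succ n ih => simp only [RS.exn, ex_eq, map_smul, ← ih]; rfl

lemma len (n : ℕ) (w : W) : (P ^ n) (fun w => w.length) w = w.length + n * (1 + q ^ 2) := by
  induction n generalizing w with
  | zero => simp
  | succ n ih =>
    rw [pow_succ', Module.End.mul_apply, P_ap, ih, ih]; simp only [List.length_cons]; push_cast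
    linear_combination (w.length + n * (1 + q ^ 2) + 1) * q1

lemma inv (x : Bool) (n : ℕ) : th.exn x n (fun w => 1 / w.length) ≤ (1 - q ^ 2 / 2) ^ n := by
  have := q0
  have := q1
  induction n with
  | zero => simp [RS.exn]
  | succ n ih =>
    refine (exn_mono x n (g := (1 - q ^ 2 / 2) • fun w : W => (1 / w.length : ℝ)) fun w hw => ?_).trans ?_
    · have l0 : (0 : ℝ) < w.length := Nat.cast_pos.2 (List.length_pos_iff.2 hw)
      rw [ex_eq, Pi.smul_apply, smul_eq_mul]
      generalize w.length = l at *
      refine (mono l [] (g := (fun _ => (3 / (2 * l) : ℝ)) - (1 / (2 * l ^ 2) : ℝ) • fun w => w.length)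
        fun u a b => ?_).trans_eq ?_
      · have a : (l : ℝ) ≤ u.length := by exact_mod_cast (by simpa using a)
        have b : (u.length : ℝ) ≤ 2 * l := by exact_mod_cast (by simpa using b)
        simp only [Pi.sub_apply, Pi.smul_apply, smul_eq_mul]
        rw [div_le_iff₀ (by linarith)]; field_simp; nlinarith
      · rw [map_sub, map_smul, cst]; simp [len]; field_simp; ring
    · rw [exn_smul, pow_succ' _ n]; exact mul_le_mul_of_nonneg_left ih (show 0 ≤ 1 - q ^ 2 / 2 by nlinarith)

lemma ch (x : Bool) (u : W) : 0 ≤ chain x u ∧ chain x u ≤ 1 := by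
  induction u generalizing x with
  | nil => simp [chain]
  | cons y u ih =>
    have := q0
    have := q1
    have : 0 ≤ tr x y ∧ tr x y ≤ 1 := by
      cases x <;> cases y <;> simp only [tr, show goldenRatio⁻¹ = q from rfl] <;> constructor <;> nlinarith
    exact ⟨mul_nonneg this.1 (ih y).1, mul_le_one₀ this.2 (ih y).1 (ih y).2⟩

theorem result : ∃ ϑ : RS, (∃ k ≥ 1, ∀ x y, 0 < (ϑ.M ^ k) x y) ∧
    ∀ (x : Bool) (Ω : Type) [MeasurableSpace Ω] (μ : Measure Ω) [IsProbabilityMeasure μ] (Z : ℕ → Ω → W),
      (∀ n (S : Set W), μ.real (Z n ⁻¹' S) = ϑ.exn x n (S.indicator 1)) → ∀ v ≠ [],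
      ∀ᵐ ω ∂μ, Tendsto (fun n => (occ v (Z n ω) : ℝ) / (Z n ω).length) atTop (𝓝 (parry v)) := by
  have q2 := q0
  have q3 := q1
  refine ⟨th, ⟨1, le_rfl, fun x y => ?_⟩, fun x Ω _ μ _ Z hZ v hv => ?_⟩
  · cases x <;> simp [RS.M, th] <;> positivity
  obtain ⟨C, C0, hC⟩ := var v hv (by
    obtain ⟨y, u, rfl⟩ := List.exists_cons_of_ne_nil hv
    have := par y u
    have := ch y u
    rw [abs_le]; cases y <;> simp at * <;> constructor <;> nlinarith)
  have : ∀ m : ℕ, ∀ᵐ ω ∂μ, ∀ᶠ n in atTop,
      ω ∉ Z (n + 1) ⁻¹' {w | 1 / (m + 1 : ℝ) ≤ dist ((occ v w : ℝ) / w.length) (parry v)} := by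
    intro m
    refine ae_eventually_notMem (ne_top_of_le_ne_top (Summable.tsum_ofReal_lt_top ((summable_geometric_of_lt_one
      (r := 1 - q ^ 2 / 2) (by nlinarith) (by nlinarith)).mul_left (C * (m + 1) ^ 2))).ne (ENNReal.tsum_le_tsum fun n => ?_))
    rw [← ofReal_measureReal, hZ]
    refine ENNReal.ofReal_le_ofReal ((exn_mono x n (g := (C * (m + 1) ^ 2) • fun w : W => (1 / w.length : ℝ))
      fun w hw => ?_).trans (by rw [exn_smul]; gcongr; exact inv x n))
    have l1 := List.length_pos_iff.2 hw
    have l0 : (0 : ℝ) < w.length := Nat.cast_pos.2 l1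
    rw [ex_eq, Pi.smul_apply, smul_eq_mul]
    generalize w.length = l at *
    refine (mono l [] (g := ((m + 1) ^ 2 / l ^ 2 : ℝ) • fun w => (occ v w - parry v * w.length) ^ 2)
      fun u a _ => ?_).trans ?_
    · have a : (l : ℝ) ≤ u.length := by exact_mod_cast (by simpa using a)
      simp only [Pi.smul_apply, smul_eq_mul, Set.indicator, Set.mem_ofPred_eq, Pi.one_apply]
      split_ifs with e
      · rw [Real.dist_eq, div_sub' (by linarith), abs_div, Nat.abs_cast, div_le_div_iff₀ (by positivity) (by linarith),
          mul_comm (u.length : ℝ)] at e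
        rw [div_mul_eq_mul_div, le_div_iff₀ (by positivity), ← sq_abs (_ - _), ← mul_pow, one_mul]
        gcongr; linarith
      · positivity
    · rw [map_smul, Pi.smul_apply, smul_eq_mul]
      exact (mul_le_mul_of_nonneg_left (hC l l1) (by positivity)).trans_eq (by field_simp)
  filter_upwards [ae_all_iff.2 this] with ω h
  refine (tendsto_add_atTop_iff_nat 1).1 (Metric.tendsto_nhds.2 fun ε e => ?_)
  obtain ⟨m, hm⟩ := exists_nat_one_div_lt e
  exact (h m).mono fun n hn => (not_le.1 hn).trans hm

end Pool.Agent.Results.MP_3f28ca_an.Parry
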